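import Pool.Agent.Lib.MP_748296_nt.H61.Hyp

/-!
# MP_748296_nt, module H, part 5: the coefficients of `bcoef` and the final assembly
-/

namespace Pool.Agent.Lib.MP_748296_nt.H61

open Finset

/-- descending factorials as products in `ℤ` -/
theorem desc_cast (n k : ℕ) : ((n.descFactorial k : ℕ) : ℤ) = ∏ i ∈ range k, ((n : ℤ) - i) := by
  rw [← descPochhammer_eval_eq_descFactorial, descPochhammer_eval_eq_prod_range]

theorem prod_three (f : ℕ → ℤ) (k : ℕ) : ∏ l ∈ range (3 * k), f l
    = ∏ i ∈ range k, (f (3 * i) * f (3 * i + 1) * f (3 * i + 2)) := by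
  induction k with
  | zero => simp
  | succ k ih =>
    rw [show 3 * (k + 1) = 3 * k + 1 + 1 + 1 by ring, prod_range_succ, prod_range_succ,
      prod_range_succ, ih, prod_range_succ]
    ring

/-- the integer identity for the coefficients. -/
theorem coef_int (k N : ℕ) (h : k < N) :
    (k.factorial : ℤ) ^ 2 * (((2 * k).choose k : ℕ) * ((N - 1 - k).choose (2 * k) : ℕ))
      * ∏ i ∈ range k, ((i : ℤ) + 1 - N)
      = ∏ i ∈ range k, ((3 * (i : ℤ) + 1 - N) * (3 * i + 2 - N) * (3 * i + 3 - N)) := by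
  have e1 : ((2 * k).choose k : ℤ) * (k.factorial : ℤ) ^ 2 = ((2 * k).factorial : ℤ) := by
    have := Nat.choose_mul_factorial_mul_factorial (show k ≤ 2 * k by omega)
    rw [show 2 * k - k = k by omega] at this
    rw [← this]
    push_cast
    ring
  have e2 : ((2 * k).factorial : ℤ) * ((N - 1 - k).choose (2 * k) : ℤ)
      = ((N - 1 - k).descFactorial (2 * k) : ℕ) := by
    rw [Nat.descFactorial_eq_factorial_mul_choose]
    push_cast
    ring
  have e3 : (((N - 1 - k).descFactorial (2 * k) : ℕ) : ℤ)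
      = ∏ l ∈ range (2 * k), (((k + l : ℕ) : ℤ) + 1 - N) := by
    rw [desc_cast]
    have h1 : ∀ l ∈ range (2 * k), (((N - 1 - k : ℕ) : ℤ) - l)
        = (-1) * (((k + l : ℕ) : ℤ) + 1 - N) := by
      intro l _
      have : ((N - 1 - k : ℕ) : ℤ) = N - 1 - k := by omega
      rw [this]
      push_cast
      ring
    rw [prod_congr rfl h1, prod_mul_distrib, prod_const, card_range, pow_mul]
    simp
  have e4 := prod_range_add (fun l : ℕ => ((l : ℤ) + 1 - N)) k (2 * k)
  rw [show k + 2 * k = 3 * k by ring, prod_three] at e4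
  have e5 : ∏ i ∈ range k, ((3 * (i : ℤ) + 1 - N) * (3 * i + 2 - N) * (3 * i + 3 - N))
      = ∏ i ∈ range k, ((((3 * i : ℕ) : ℤ) + 1 - N) * (((3 * i + 1 : ℕ) : ℤ) + 1 - N)
        * (((3 * i + 2 : ℕ) : ℤ) + 1 - N)) := by
    refine prod_congr rfl fun i _ => ?_
    push_cast
    ring
  rw [e5, e4, ← e3, ← e2, ← e1]
  ring

section
variable {B : Type} [CommRing B] {p m : ℕ}

/-- `A_k(t)`. -/
def AA (p : ℕ) (k : ℕ) (t : B) : B := ∏ i ∈ range k, ((3 * (i : B) + 1 + p * t * (-1))
  * (3 * (i : B) + 2 + p * t * (-1)) * ((3 * (i : B) + 3 + p * t * (-1)) * ((i : B) + 1 + p * t * 1)))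

theorem aff_A (h : Ctx p m B) (k : ℕ) : Aff p fun t : B => AA p k t :=
  Aff.prod h.hB.sq k (fun i t => ((3 * (i : B) + 1 + p * t * (-1))
    * (3 * (i : B) + 2 + p * t * (-1)) * ((3 * (i : B) + 3 + p * t * (-1)) * ((i : B) + 1 + p * t * 1))))
    (fun i => ((Aff.lin p _ _).mul h.hB.sq (Aff.lin p _ _)).mul h.hB.sq
      ((Aff.lin p _ _).mul h.hB.sq (Aff.lin p _ _)))

theorem fact_prod (k : ℕ) : (k.factorial : B) = ∏ i ∈ range k, ((i : B) + 1) := by
  induction k with
  | zero => simp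
  | succ k ih =>
    rw [prod_range_succ, ← ih, Nat.factorial_succ]
    push_cast
    ring

theorem AA_zero {k : ℕ} {T : B}
    (hT : T * (9 ^ k * (k.factorial : B) ^ 2)
      = ∏ i ∈ range k, ((3 * (i : B) + 1) * (3 * (i : B) + 2))) :
    AA p k (0 : B) = 27 ^ k * (k.factorial : B) ^ 4 * T := by
  have h1 : AA p k (0 : B) = (∏ i ∈ range k, ((3 * (i : B) + 1) * (3 * (i : B) + 2)))
      * (3 ^ k * (∏ i ∈ range k, ((i : B) + 1)) * (∏ i ∈ range k, ((i : B) + 1))) := by
    rw [AA, pow_mul_prod, ← prod_mul_distrib, ← prod_mul_distrib]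
    exact prod_congr rfl fun i _ => by ring
  rw [h1, ← hT, ← fact_prod, show (27 : B) = 9 * 3 by norm_num, mul_pow]
  ring

/-- The sequence `R` with `27^k k!^4 (T_k - t p R_k) = A_k(t)`. -/
theorem exists_R (h : Ctx p m B) (T : ℕ → B)
    (hT : ∀ k < p, T k * (9 ^ k * (k.factorial : B) ^ 2)
      = ∏ i ∈ range k, ((3 * (i : B) + 1) * (3 * (i : B) + 2))) :
    ∃ R : ℕ → B, ∀ k < p, ∀ t : B,
      27 ^ k * (k.factorial : B) ^ 4 * (T k - t * (p * R k)) = AA p k t := by
  choose Y hY using fun k => aff_A h k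
  obtain ⟨R, hR⟩ := exists_seq (p := p) (fun k => (27 : B) ^ k * (k.factorial : B) ^ 4)
    (fun k => - Y k) (fun k hk => h.u27f hk)
  refine ⟨R, fun k hk t => ?_⟩
  have h1 := hY k t
  beta_reduce at h1
  rw [h1, AA_zero (hT k hk)]
  have h2 := hR k hk
  linear_combination (-(t * p)) * h2

/-- the binomials for `N = J p`. -/
theorem coef_small (h : Ctx p m B) {k : ℕ} (hk : k < p) (J : ℕ) (hJ : 1 ≤ J) {T R : B}
    (hR : ∀ t : B, 27 ^ k * (k.factorial : B) ^ 4 * (T - t * (p * R)) = AA p k t) :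
    (((2 * k).choose k : ℕ) : B) * ((J * p - 1 - k).choose (2 * k) : ℕ)
      = 27 ^ k * (T - J * (p * R)) := by
  have hkJ : k < J * p := by nlinarith
  have h1 := congrArg (fun a : ℤ => (a : B)) (coef_int k (J * p) hkJ)
  push_cast at h1
  have hu : IsUnit ((k.factorial : B) ^ 4) := (h.uf k hk).pow 4
  refine hu.mul_left_cancel ?_
  have h2 := hR J
  have h3 : (∏ i ∈ range k, ((i : B) + 1 - J * p)) * ∏ i ∈ range k, ((i : B) + 1 + J * p)
      = (k.factorial : B) ^ 2 := by
    rw [← prod_mul_distrib, fact_prod, ← prod_pow]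
    refine prod_congr rfl fun i _ => ?_
    linear_combination (-(J : B) ^ 2) * h.hB.sq
  have h4 : AA p k (J : B) = (∏ i ∈ range k, ((3 * (i : B) + 1 - J * p) * (3 * i + 2 - J * p)
      * (3 * i + 3 - J * p))) * ∏ i ∈ range k, ((i : B) + 1 + J * p) := by
    rw [AA, ← prod_mul_distrib]
    exact prod_congr rfl fun i _ => by ring
  have h5 : (k.factorial : B) ^ 4 * (27 ^ k * (T - J * (p * R)))
      = 27 ^ k * (k.factorial : B) ^ 4 * (T - J * (p * R)) := by ring
  rw [h5, h2, h4, ← h1]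
  linear_combination (-((k.factorial : B) ^ 2 * (((2 * k).choose k : ℕ) *
    ((J * p - 1 - k).choose (2 * k) : ℕ)))) * h3

/-- the terms of `bcoef` with `k < p`. -/
theorem term_small (h : Ctx p m B) {k : ℕ} (hk : k < p) (J : ℕ) (hJ : 1 ≤ J) {T R q r : B}
    (hR : ∀ t : B, 27 ^ k * (k.factorial : B) ^ 4 * (T - t * (p * R)) = AA p k t)
    (hq : q = 3 ^ (p - 1) - 1) (hr : q = p * r) (lam : B) :
    (if 3 * k + 1 ≤ J * p then
      (Nat.choose (2 * k) k : B) * (Nat.choose (J * p - 1 - k) (2 * k) : B)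
        * 3 ^ (J * p - 1 - 3 * k) * lam ^ k
     else 0) = 3 ^ (J - 1) * (T + J * (q * T - p * R)) * lam ^ k := by
  have hS := coef_small h hk J hJ hR
  have hp2 := h.hB.sq
  split_ifs with hc
  · have e1 : J * p - 1 = 3 * k + (J * p - 1 - 3 * k) := by omega
    have e2 : J * p - 1 = (J - 1) + (p - 1) * J := by
      have hp1 := h.h5
      obtain ⟨a, rfl⟩ : ∃ a, J = a + 1 := ⟨J - 1, by omega⟩
      obtain ⟨b, hb⟩ : ∃ b, p = b + 1 := ⟨p - 1, by omega⟩
      rw [hb]
      simp only [Nat.add_sub_cancel]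
      have : (a + 1) * (b + 1) = (a + b * (a + 1)) + 1 := by ring
      rw [this, Nat.add_sub_cancel]
    have e3 : (27 : B) ^ k * 3 ^ (J * p - 1 - 3 * k) = 3 ^ (J - 1) * (1 + J * q) := by
      have e4 : (27 : B) ^ k = 3 ^ (3 * k) := by rw [pow_mul]; norm_num
      rw [e4, ← pow_add, ← e1, e2, pow_add, pow_mul]
      congr 1
      have e5 : (3 : B) ^ (p - 1) = 1 + q := by rw [hq]; ring
      rw [e5]
      have e6 : ∀ a : ℕ, (1 + q) ^ a = 1 + a * q := by
        intro a
        induction a with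
        | zero => simp
        | succ a ih =>
          rw [pow_succ, ih]
          push_cast
          rw [hr]
          linear_combination (a * r ^ 2 : B) * hp2
      exact e6 J
    calc (Nat.choose (2 * k) k : B) * (Nat.choose (J * p - 1 - k) (2 * k) : B)
        * 3 ^ (J * p - 1 - 3 * k) * lam ^ k
        = (T - J * (p * R)) * (27 ^ k * 3 ^ (J * p - 1 - 3 * k)) * lam ^ k := by rw [hS]; ring
      _ = 3 ^ (J - 1) * (T + J * (q * T - p * R)) * lam ^ k := by
        rw [e3, hr]
        linear_combination (-(3 ^ (J - 1) * lam ^ k * J ^ 2 * R * r : B)) * hp2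
  · have hpJ : p ≤ J * p := Nat.le_mul_of_pos_left _ hJ
    have h5 := h.h5
    have e0 : (J * p - 1 - k).choose (2 * k) = 0 := Nat.choose_eq_zero_of_lt (by omega)
    rw [e0] at hS
    have hu : IsUnit ((27 : B) ^ k) := by
      have : (27 : B) = 3 ^ 3 := by norm_num
      rw [this]
      exact (h.u3.pow 3).pow k
    have hT : T - J * (p * R) = 0 := by
      refine hu.mul_left_cancel ?_
      rw [← hS]; simp
    have hT' : T = J * (p * R) := by linear_combination hT
    rw [hT', hr]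
    linear_combination (-(3 ^ (J - 1) * lam ^ k * J ^ 2 * R * r : B)) * hp2

/-- `φ_p(p+a) = -(2 - 6 q)`. -/
theorem phi_p {q : B} (hodd : Odd p) (a : ℕ) (h1 : ((Nat.choose (2 * p) p : ℕ) : B) = 2)
    (h2 : ((Nat.choose (2 * p + a) a : ℕ) : B) = 1 - 3 * q) :
    (phi (p + a) p : B) = -2 + 6 * q := by
  have e1 : (2 * p + a).choose (2 * p) * (2 * p).choose p
      = (2 * p + a).choose p * (p + a).choose p := by
    have := Nat.choose_mul (n := 2 * p + a) (k := 2 * p) (s := p) (by omega)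
    rwa [show 2 * p + a - p = p + a by omega, show 2 * p - p = p by omega] at this
  have e2 : (2 * p + a).choose (2 * p) = (2 * p + a).choose a := by
    rw [← Nat.choose_symm_add]
  have e3 : p + a + p = 2 * p + a := by ring
  have e4 := congrArg (fun x : ℕ => (x : B)) e1
  push_cast at e4
  rw [e2, h1, h2] at e4
  simp only [phi, hodd.neg_one_pow, e3]
  push_cast
  linear_combination e4

/-- large coefficients -/
theorem phi_large (h : Ctx p m B) {j : ℕ} (hj : j < p) {T R q r : B}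
    (hR : ∀ t : B, 27 ^ j * (j.factorial : B) ^ 4 * (T - t * (p * R)) = AA p j t)
    (hr : q = p * r)
    (k1 : (phi (p + 2 * m) p : B) = -2 + 6 * q) (k2 : (phi (p + 4 * m) p : B) = -2 + 6 * q) :
    5 * (phi (p + 2 * m) (p + j) : B) + 4 * (phi (p + 4 * m) (p + j) : B)
      = 9 * (-2 * T + 6 * (q * T - p * R)) := by
  set H : B → B := fun t => ∏ i ∈ range j, ((3 * (i : B) + 1 + 3 * p + p * t * (-1))
    * (3 * (i : B) + 2 + 3 * p + p * t * 1)) with hH
  have hA : Aff p H := Aff.prod h.hB.sq j (fun i t => (3 * (i : B) + 1 + 3 * p + p * t * (-1))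
    * (3 * (i : B) + 2 + 3 * p + p * t * 1)) (fun i => (Aff.lin p _ _).mul h.hB.sq (Aff.lin p _ _))
  have hI := hA.interp (a := 5) (b := 4) (s := 4) (t := -5) (by ring)
  set Q : B := ∏ i ∈ range j, ((p : B) + i + 1) ^ 2 with hQ
  have hQu : IsUnit Q := by
    refine isUnit_prod' j _ fun i hi => IsUnit.pow 2 ?_
    have := h.hB.unit (p + i + 1) (fun hd => by
      have h1 : p ∣ i + 1 := by
        rw [add_assoc] at hd
        exact (Nat.dvd_add_right (dvd_refl p)).1 hd
      have := Nat.le_of_dvd (by omega) h1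
      omega)
    push_cast at this
    exact this
  have g : ∀ (a : ℕ) (t : B), (∀ i : B, 9 * (((p : B) + i - (p + a : ℕ)) * (p + i + (p + a : ℕ) + 1))
      = (3 * i + 1 + 3 * p + p * t * (-1)) * (3 * i + 2 + 3 * p + p * t * 1)) →
      9 ^ j * ((phi (p + a) (p + j) : B) * Q) = (phi (p + a) p : B) * H t := by
    intro a t ht
    have h1 := congrArg (fun x : ℤ => (x : B)) (phi_prod_add (p + a) p j)
    push_cast at h1
    have h2 : (phi (p + a) (p + j) : B) * Q = (phi (p + a) p : B)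
        * ∏ i ∈ range j, (((p : B) + i - (p + a : ℕ)) * (p + i + (p + a : ℕ) + 1)) := by
      rw [hQ]
      push_cast
      exact h1
    rw [h2, mul_left_comm, pow_mul_prod]
    congr 1
    exact prod_congr rfl fun i _ => ht i
  have g1 := g (2 * m) 4 (by
    intro i
    push_cast
    rw [h.cast]; ring)
  have g2 := g (4 * m) (-5) (by
    intro i
    push_cast
    rw [h.cast]; ring)
  rw [k1] at g1
  rw [k2] at g2
  have g3 : 9 ^ j * ((T + 3 * (p * R)) * Q) = H 0 := by
    have hu : IsUnit ((3 : B) ^ j * (j.factorial : B) ^ 4) := (h.u3.pow j).mul ((h.uf j hj).pow 4)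
    refine hu.mul_left_cancel ?_
    have h3 := hR (-3)
    have h4 : AA p j (-3 : B) * Q = 3 ^ j * (j.factorial : B) ^ 4 * H 0 := by
      rw [AA, hQ, hH, fact_prod, ← prod_pow, pow_mul_prod, ← prod_mul_distrib, ← prod_mul_distrib]
      refine prod_congr rfl fun i _ => ?_
      have hp2 := h.hB.sq
      have e : (3 * (i : B) + 3 + p * (-3) * (-1)) * ((i : B) + 1 + p * (-3) * 1)
          * ((p : B) + i + 1) ^ 2 = 3 * ((i : B) + 1) ^ 4 := by
        have e1 : (3 * (i : B) + 3 + p * (-3) * (-1)) * ((i : B) + 1 + p * (-3) * 1)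
          * ((p : B) + i + 1) ^ 2 = 3 * (((i : B) + 1 + p) ^ 3 * ((i : B) + 1 - 3 * p)) := by ring
        rw [e1]
        linear_combination (-18 * ((i : B) + 1) ^ 2 - 24 * p * ((i : B) + 1) - 9 * p ^ 2) * hp2
      linear_combination ((3 * (i : B) + 1 + p * (-3) * (-1)) * (3 * (i : B) + 2 + p * (-3) * (-1))) * e
    rw [← h3] at h4
    rw [← h4, show (27 : B) = 9 * 3 by norm_num, mul_pow]
    ring
  beta_reduce at hI
  have h9 : IsUnit ((9 : B) ^ j) := by
    have : (9 : B) = 3 ^ 2 := by norm_num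
    rw [this]
    exact (h.u3.pow 2).pow j
  refine (h9.mul hQu).mul_left_cancel ?_
  have h6 : 9 ^ j * Q * (5 * (phi (p + 2 * m) (p + j) : B) + 4 * (phi (p + 4 * m) (p + j) : B))
      = (-2 + 6 * q) * (9 * (9 ^ j * ((T + 3 * (p * R)) * Q))) := by
    rw [g3]
    linear_combination 5 * g1 + 4 * g2 + (-2 + 6 * q) * hI
  rw [h6, hr]
  linear_combination (9 ^ j * Q * 162 * R * r) * h.hB.sq

/-- **Module H.** -/
theorem hStatement (hA1 : A1Statement) (hA2 : A2Statement) : HStatement := by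
  intro p n hp h5 hpn B _ hB lam a1 a2 ha1 ha2
  have hodd : Odd p := hp.odd_of_ne_two (by omega)
  obtain ⟨m, hm⟩ : ∃ m, n = 2 * m := by
    obtain ⟨a, ha⟩ := hodd
    exact ⟨n / 2, by omega⟩
  subst hm
  have h : Ctx p m B := ⟨hp, h5, by omega, hB⟩
  obtain ⟨T, hT⟩ := exists_seq (p := p) (fun k => (9 : B) ^ k * (k.factorial : B) ^ 2)
    (fun k => ∏ i ∈ range k, ((3 * (i : B) + 1) * (3 * (i : B) + 2))) (fun k hk => h.u9f hk)
  obtain ⟨R, hR⟩ := exists_R h T hT
  set q : B := 3 ^ (p - 1) - 1 with hq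
  obtain ⟨r, hr⟩ : ∃ r : B, q = p * r := by
    have h1 : ((3 : ℕ) ^ (p - 1) : ℕ) ≡ 1 [MOD p] := by
      have hc : Nat.Coprime 3 p := by
        rw [Nat.coprime_comm, hp.coprime_iff_not_dvd]
        intro hd
        have := Nat.le_of_dvd (by norm_num) hd
        omega
      have := Nat.ModEq.pow_totient hc
      rwa [Nat.totient_prime hp] at this
    obtain ⟨c, hc⟩ := (Nat.modEq_iff_dvd' (Nat.one_le_pow _ _ (by norm_num))).1 h1.symm
    refine ⟨c, ?_⟩
    have h2 : (3 : ℕ) ^ (p - 1) = 1 + p * c := by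
      have := Nat.one_le_pow (p - 1) 3 (by norm_num)
      omega
    have h3 := congrArg (fun x : ℕ => (x : B)) h2
    push_cast at h3
    rw [hq, h3]
    ring
  have hA1' := hA1 p hp (by omega) B hB
  obtain ⟨hA2a, hA2b⟩ := hA2 p (2 * m) hp (by omega) hpn B hB
  have k1 : (phi (p + 2 * m) p : B) = -2 + 6 * q := phi_p hodd _ hA1' hA2a
  have k2 : (phi (p + 4 * m) p : B) = -2 + 6 * q := by
    refine phi_p hodd _ hA1' ?_
    rw [show 4 * m = 2 * (2 * m) by ring]
    exact hA2b
  -- the terms of `bcoef`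
  have hterm : ∀ J : ℕ, 1 ≤ J → ∀ k ∈ range p, (if 3 * k + 1 ≤ J * p then
      (Nat.choose (2 * k) k : B) * (Nat.choose (J * p - 1 - k) (2 * k) : B)
        * 3 ^ (J * p - 1 - 3 * k) * lam ^ k
     else 0) = 3 ^ (J - 1) * (T k + J * (q * T k - p * R k)) * lam ^ k := by
    intro J hJ k hk
    rw [mem_range] at hk
    exact term_small h hk J hJ (hR k hk) hq hr lam
  have hbc : ∀ M : ℕ, bcoef B lam M = ∑ k ∈ range M, if 3 * k + 1 ≤ M then
      (Nat.choose (2 * k) k : B) * (Nat.choose (M - 1 - k) (2 * k) : B)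
        * 3 ^ (M - 1 - 3 * k) * lam ^ k else 0 := fun M => rfl
  have b1 : bcoef B lam p = ∑ k ∈ range p, T k * lam ^ k
      + ∑ k ∈ range p, (q * T k - p * R k) * lam ^ k := by
    have h1 := sum_congr rfl (hterm 1 le_rfl)
    simp only [one_mul] at h1
    rw [hbc, h1, ← sum_add_distrib]
    refine sum_congr rfl fun k _ => ?_
    simp
    ring
  have b2 : bcoef B lam (2 * p) = 3 * (∑ k ∈ range p, T k * lam ^ k
      + 2 * ∑ k ∈ range p, (q * T k - p * R k) * lam ^ k) := by
    have h1 := sum_congr rfl (hterm 2 (by norm_num))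
    rw [hbc]
    have h2 : ∀ M : ℕ, M = p + p → ∑ k ∈ range M, (if 3 * k + 1 ≤ 2 * p then
      (Nat.choose (2 * k) k : B) * (Nat.choose (2 * p - 1 - k) (2 * k) : B)
        * 3 ^ (2 * p - 1 - 3 * k) * lam ^ k else 0) = ∑ k ∈ range p, (if 3 * k + 1 ≤ 2 * p then
      (Nat.choose (2 * k) k : B) * (Nat.choose (2 * p - 1 - k) (2 * k) : B)
        * 3 ^ (2 * p - 1 - 3 * k) * lam ^ k else 0) := by
      intro M hM
      rw [hM, sum_range_add, add_eq_left]
      refine sum_eq_zero fun i _ => ?_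
      rw [if_neg (by omega)]
    rw [h2 _ (two_mul p), h1, mul_add, mul_sum, mul_left_comm, mul_sum, mul_sum, ← sum_add_distrib]
    refine sum_congr rfl fun k _ => ?_
    push_cast
    ring
  have b4 : bcoef B lam (4 * p) = 27 * (∑ k ∈ range p, T k * lam ^ k
      + 4 * ∑ k ∈ range p, (q * T k - p * R k) * lam ^ k) + 2 * lam ^ p * bcoef B lam p := by
    have h1 := sum_congr rfl (hterm 4 (by norm_num))
    rw [hbc (4 * p)]
    have h2 : ∀ M : ℕ, M = p + p + (p + p) → ∑ k ∈ range M, (if 3 * k + 1 ≤ 4 * p then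
      (Nat.choose (2 * k) k : B) * (Nat.choose (4 * p - 1 - k) (2 * k) : B)
        * 3 ^ (4 * p - 1 - 3 * k) * lam ^ k else 0) = ∑ k ∈ range p, (if 3 * k + 1 ≤ 4 * p then
      (Nat.choose (2 * k) k : B) * (Nat.choose (4 * p - 1 - k) (2 * k) : B)
        * 3 ^ (4 * p - 1 - 3 * k) * lam ^ k else 0) + ∑ i ∈ range p,
        (if 3 * (p + i) + 1 ≤ 4 * p then
      (Nat.choose (2 * (p + i)) (p + i) : B) * (Nat.choose (4 * p - 1 - (p + i)) (2 * (p + i)) : B)
        * 3 ^ (4 * p - 1 - 3 * (p + i)) * lam ^ (p + i) else 0) := by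
      intro M hM
      rw [hM, sum_range_add _ (p + p) (p + p), sum_range_add _ p p, add_eq_left]
      refine sum_eq_zero fun i _ => ?_
      rw [if_neg (by omega)]
    rw [h2 _ (by ring), h1, hbc p]
    congr 1
    · rw [mul_add, mul_sum, mul_left_comm, mul_sum, mul_sum, ← sum_add_distrib]
      refine sum_congr rfl fun k _ => ?_
      push_cast
      norm_num
      ring
    · rw [mul_sum]
      refine sum_congr rfl fun i _ => ?_
      by_cases hi : 3 * i + 1 ≤ p
      · rw [if_pos hi, if_pos (by omega)]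
        have he := eta hp hB (by omega) hi
        rw [show 4 * p - 1 - 3 * (p + i) = p - 1 - 3 * i by omega, pow_add]
        linear_combination (3 ^ (p - 1 - 3 * i) * (lam ^ p * lam ^ i)) * he
      · rw [if_neg hi, if_neg (by omega), mul_zero]
  have u3 := h.u3
  refine ⟨∑ k ∈ range p, T k * lam ^ k, ∑ k ∈ range p, (q * T k - p * R k) * lam ^ k,
    b1, b2, ?_, ?_, ?_⟩
  · rw [b4, b1]
  · refine u3.mul_left_cancel ?_
    rw [sum_a1 h lam a1 ha1, mul_sum, mul_sum, ← sum_add_distrib]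
    refine sum_congr rfl fun k hk => ?_
    rw [mem_range] at hk
    have := (phi_small h hk (hT k hk)).1
    linear_combination (lam ^ k) * this
  · have u9 : IsUnit (9 : B) := by
      have : (9 : B) = 3 ^ 2 := by norm_num
      rw [this]
      exact u3.pow 2
    have h1 := sum_a2 h lam a2 ha2
    rw [sum_range_add, sum_range_add] at h1
    have h2 : 5 * ∑ k ∈ range p, (phi (p + 2 * m) k : B) * lam ^ k
        + 4 * ∑ k ∈ range p, (phi (p + 4 * m) k : B) * lam ^ k
        = 9 * ∑ k ∈ range p, T k * lam ^ k := by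
      rw [mul_sum, mul_sum, mul_sum, ← sum_add_distrib]
      refine sum_congr rfl fun k hk => ?_
      rw [mem_range] at hk
      have := (phi_small h hk (hT k hk)).2
      linear_combination (lam ^ k) * this
    have h3 : 5 * ∑ j ∈ range p, (phi (p + 2 * m) (p + j) : B) * lam ^ (p + j)
        + 4 * ∑ j ∈ range p, (phi (p + 4 * m) (p + j) : B) * lam ^ (p + j)
        = 9 * lam ^ p * (-2 * ∑ k ∈ range p, T k * lam ^ k
          + 6 * ∑ k ∈ range p, (q * T k - p * R k) * lam ^ k) := by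
      have : 9 * lam ^ p * (-2 * ∑ k ∈ range p, T k * lam ^ k
          + 6 * ∑ k ∈ range p, (q * T k - p * R k) * lam ^ k)
          = ∑ k ∈ range p, 9 * lam ^ p * (-2 * (T k * lam ^ k) + 6 * ((q * T k - p * R k) * lam ^ k)) := by
        rw [← mul_sum, sum_add_distrib, mul_sum, mul_sum]
      rw [this, mul_sum, mul_sum, ← sum_add_distrib]
      refine sum_congr rfl fun k hk => ?_
      rw [mem_range] at hk
      have := phi_large h hk (hR k hk) hr k1 k2
      rw [pow_add]
      linear_combination (lam ^ p * lam ^ k) * this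
    refine u9.mul_left_cancel ?_
    linear_combination (-1) * h1 - h2 - h3

end

end Pool.Agent.Lib.MP_748296_nt.H61
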