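import Pool.Agent.Lib.MP_748296_nt.H61.RingB

/-!
# MP_748296_nt, module H, part 3: the coefficients with `k ≥ p` for `4p`
-/

namespace Pool.Agent.Lib.MP_748296_nt.H61

open Finset

theorem isUnit_prod' {B : Type} [CommRing B] (k : ℕ) (f : ℕ → B) (h : ∀ i < k, IsUnit (f i)) :
    IsUnit (∏ i ∈ range k, f i) := by
  induction k with
  | zero => simp
  | succ k ih =>
    rw [prod_range_succ]
    exact (ih fun i hi => h i (by omega)).mul (h k (by omega))

theorem asc_prod (B : Type) [CommRing B] (a k : ℕ) :
    (((a + 1).ascFactorial k : ℕ) : B) = ∏ l ∈ range k, ((a : B) + 1 + l) := by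
  induction k with
  | zero => simp
  | succ k ih =>
    rw [Nat.ascFactorial_succ, prod_range_succ, ← ih]
    push_cast
    ring

/-- The identity of integers. -/
theorem eta_nat (p i r : ℕ) (hp : p = i + r + 1) (h : 2 * i ≤ r) :
    (2 * (p + i)).choose (p + i) * (2 * p + r).choose (2 * (p + i))
        * ((i + 1).ascFactorial r * (p + 1).ascFactorial i) ^ 2
      = 2 * ((r + 1).ascFactorial i * (p + 1).ascFactorial (i + r) * (2 * p + 1).ascFactorial r)
        * ((2 * i).choose i * r.choose (2 * i)) := by
  have hp0 : 0 < p := by omega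
  have e1 : (p + i).factorial = p * (i.factorial * ((i + 1).ascFactorial r * (p + 1).ascFactorial i)) := by
    rw [← Nat.factorial_mul_ascFactorial p i, hp, Nat.factorial_succ (i + r),
      ← Nat.factorial_mul_ascFactorial i r]
    ring
  have e2 : (2 * p + r).factorial = 2 * p * p * (r.factorial *
      ((r + 1).ascFactorial i * (p + 1).ascFactorial (i + r) * (2 * p + 1).ascFactorial r)) := by
    rw [← Nat.factorial_mul_ascFactorial (2 * p) r]
    have h1 : (2 * p).factorial = 2 * p * (p + (i + r)).factorial := by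
      rw [show 2 * p = (p + (i + r)) + 1 by omega, Nat.factorial_succ]
    have h2 : p.factorial = p * (i + r).factorial := by
      conv_lhs => rw [hp]
      rw [Nat.factorial_succ, ← hp]
    rw [h1, ← Nat.factorial_mul_ascFactorial p (i + r), h2, add_comm i r,
      ← Nat.factorial_mul_ascFactorial r i, add_comm r i]
    ring
  have e3 : r.choose (2 * i) * (2 * i).factorial * (r - 2 * i).factorial = r.factorial :=
    Nat.choose_mul_factorial_mul_factorial h
  have e4 : (2 * i).choose i * i.factorial * i.factorial = (2 * i).factorial := by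
    have := Nat.choose_mul_factorial_mul_factorial (show i ≤ 2 * i by omega)
    rwa [show 2 * i - i = i by omega] at this
  have e5 : (2 * p + r).choose (2 * (p + i)) * (2 * (p + i)).factorial * (r - 2 * i).factorial
      = (2 * p + r).factorial := by
    have := Nat.choose_mul_factorial_mul_factorial (show 2 * (p + i) ≤ 2 * p + r by omega)
    rwa [show 2 * p + r - 2 * (p + i) = r - 2 * i by omega] at this
  have e6 : (2 * (p + i)).choose (p + i) * (p + i).factorial * (p + i).factorial
      = (2 * (p + i)).factorial := by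
    have := Nat.choose_mul_factorial_mul_factorial (show p + i ≤ 2 * (p + i) by omega)
    rwa [show 2 * (p + i) - (p + i) = p + i by omega] at this
  have hpos : 0 < p ^ 2 * i.factorial ^ 2 * (r - 2 * i).factorial := by positivity
  refine Nat.eq_of_mul_eq_mul_left hpos ?_
  rw [← e6, e1, e2, ← e3, ← e4] at e5
  nlinarith [e5]

/-- The affine computation. -/
theorem eta_unit {B : Type} [CommRing B] (p i r : ℕ) (hp : p = i + r + 1) (hodd : Odd p)
    (hp2 : (p : B) ^ 2 = 0) :
    (((r + 1).ascFactorial i * (p + 1).ascFactorial (i + r) * (2 * p + 1).ascFactorial r : ℕ) : B)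
      = (((i + 1).ascFactorial r * (p + 1).ascFactorial i : ℕ) : B) ^ 2 := by
  have hpc : (p : B) = i + r + 1 := by rw [hp]; push_cast; ring
  set E : B → B := fun t => ∏ l ∈ range i, ((l : B) + 1 + p * t * 1) with hE
  set F : B → B := fun t => ∏ l ∈ range r, ((i : B) + 1 + l + p * t * 1) with hF
  have hEa : Aff p E := Aff.prod hp2 i (fun l t => (l : B) + 1 + p * t * 1) (fun l => Aff.lin p _ _)
  have hFa : Aff p F := Aff.prod hp2 r (fun l t => (i : B) + 1 + l + p * t * 1)
    (fun l => Aff.lin p _ _)
  have hEF : ∀ t, E t * F t = ∏ l ∈ range (i + r), ((l : B) + 1 + p * t) := by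
    intro t
    rw [prod_range_add, hE, hF]
    congr 1
    · exact prod_congr rfl fun l _ => by ring
    · refine prod_congr rfl fun l _ => ?_
      push_cast
      ring
  have hev : Even (i + r) := by
    obtain ⟨a, ha⟩ := hodd
    exact ⟨a, by omega⟩
  have hW1 : E (-1) * F (-1) = E 0 * F 0 := by
    rw [hEF, hEF, ← prod_range_reflect]
    have h1 : ∀ l ∈ range (i + r), (((i + r - 1 - l : ℕ) : B) + 1 + p * (-1))
        = (-1) * ((l : B) + 1 + p * 0) := by
      intro l hl
      rw [mem_range] at hl
      have h2 : ((i + r - 1 - l : ℕ) : B) + (l + 1) = i + r := by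
        have h3 : (i + r - 1 - l) + (l + 1) = i + r := by omega
        have h4 := congrArg (fun a : ℕ => (a : B)) h3
        push_cast at h4
        exact h4
      linear_combination h2 + (-1) * hpc
    rw [prod_congr rfl h1, prod_mul_distrib, prod_const, card_range, hev.neg_one_pow, one_mul]
  obtain ⟨Y, hY⟩ := hEa
  obtain ⟨Z, hZ⟩ := hFa
  have key : (p : B) * (E 0 * Z + F 0 * Y) = 0 := by
    rw [hY (-1), hZ (-1)] at hW1
    linear_combination (-1) * hW1 + (Y * Z) * hp2
  have a1 : (((r + 1).ascFactorial i : ℕ) : B) = (-1) ^ i * E (-1) := by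
    rw [asc_prod, ← prod_range_reflect, ← card_range i, ← prod_const, hE, ← prod_mul_distrib,
      card_range]
    refine prod_congr rfl fun l hl => ?_
    rw [mem_range] at hl
    have h2 : ((i - 1 - l : ℕ) : B) + (l + 1) = i := by
      have h3 : (i - 1 - l) + (l + 1) = i := by omega
      have h4 := congrArg (fun a : ℕ => (a : B)) h3
      push_cast at h4
      exact h4
    linear_combination h2 + (-1) * hpc
  have a2 : (((p + 1).ascFactorial (i + r) : ℕ) : B) = E 1 * F 1 := by
    rw [asc_prod, hEF]
    exact prod_congr rfl fun l _ => by ring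
  have a3 : (((2 * p + 1).ascFactorial r : ℕ) : B) = (-1) ^ r * F (-3) := by
    rw [asc_prod, ← prod_range_reflect, ← card_range r, ← prod_const, hF, ← prod_mul_distrib,
      card_range]
    refine prod_congr rfl fun l hl => ?_
    rw [mem_range] at hl
    have h2 : ((r - 1 - l : ℕ) : B) + (l + 1) = r := by
      have h3 : (r - 1 - l) + (l + 1) = r := by omega
      have h4 := congrArg (fun a : ℕ => (a : B)) h3
      push_cast at h4
      exact h4
    push_cast
    linear_combination h2 + (-1) * hpc
  have a4 : (((i + 1).ascFactorial r : ℕ) : B) = F 0 := by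
    rw [asc_prod]
    exact prod_congr rfl fun l _ => by ring
  have a5 : (((p + 1).ascFactorial i : ℕ) : B) = E 1 := by
    rw [asc_prod]
    exact prod_congr rfl fun l _ => by ring
  have hs : ((-1 : B)) ^ i * (-1) ^ r = 1 := by rw [← pow_add, hev.neg_one_pow]
  push_cast
  rw [a1, a2, a3, a4, a5]
  have : (-1 : B) ^ i * E (-1) * (E 1 * F 1) * ((-1) ^ r * F (-3))
      = (E (-1) * (E 1 * F 1) * F (-3)) * ((-1) ^ i * (-1) ^ r) := by ring
  rw [this, hs, mul_one, hY (-1), hY 1, hZ 1, hZ (-3)]
  generalize E 0 = e at *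
  generalize F 0 = f at *
  linear_combination (-2 * e * f) * key
    + (-3 * e ^ 2 * Z ^ 2 - 2 * Y ^ 2 * f ^ 2 + 2 * p * Y ^ 2 * f * Z + 3 * p ^ 2 * Y ^ 2 * Z ^ 2) * hp2

/-- In `B` the coefficient doubles. -/
theorem eta {B : Type} [CommRing B] {p i : ℕ} (hp : p.Prime) (hB : RingP2 p B) (h2 : 2 < p)
    (h : 3 * i + 1 ≤ p) :
    (((2 * (p + i)).choose (p + i) : ℕ) : B) * ((4 * p - 1 - (p + i)).choose (2 * (p + i)) : ℕ)
      = 2 * (((2 * i).choose i : ℕ) * ((p - 1 - i).choose (2 * i) : ℕ)) := by
  obtain ⟨r, hr⟩ : ∃ r, p = i + r + 1 := ⟨p - 1 - i, by omega⟩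
  have e1 : 4 * p - 1 - (p + i) = 2 * p + r := by omega
  have e2 : p - 1 - i = r := by omega
  rw [e1, e2]
  have h3 := congrArg (fun a : ℕ => (a : B)) (eta_nat p i r hr (by omega))
  have h4 := eta_unit (B := B) p i r hr (hp.odd_of_ne_two (by omega)) hB.sq
  have h5 : IsUnit (((i + 1).ascFactorial r * (p + 1).ascFactorial i : ℕ) : B) := by
    refine hB.unit _ ?_
    rw [hp.dvd_mul]
    have hd : ∀ a k : ℕ, (∀ l < k, ¬ p ∣ a + 1 + l) → ¬ p ∣ (a + 1).ascFactorial k := by
      intro a k
      induction k with
      | zero => intro _; simpa using hp.one_lt.ne'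
      | succ k ih =>
        intro hl
        rw [Nat.ascFactorial_succ, hp.dvd_mul]
        push Not
        exact ⟨hl k (by omega), ih fun l hlk => hl l (by omega)⟩
    rintro (h6 | h6)
    · refine hd i r (fun l hl h7 => ?_) h6
      have := Nat.le_of_dvd (by omega) h7
      omega
    · refine hd p i (fun l hl h7 => ?_) h6
      have h8 : p ∣ 1 + l := by
        have : p + 1 + l = p + (1 + l) := by ring
        rw [this] at h7
        exact (Nat.dvd_add_right (dvd_refl p)).1 h7
      have := Nat.le_of_dvd (by omega) h8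
      omega
  refine (h5.pow 2).mul_left_cancel ?_
  beta_reduce at h3
  rw [Nat.cast_mul, Nat.cast_mul, Nat.cast_mul, Nat.cast_mul 2, h4] at h3
  push_cast at h3 ⊢
  linear_combination h3

end Pool.Agent.Lib.MP_748296_nt.H61
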