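import Pool.Agent.Lib.MP_748296_nt.Interfaces

/-!
# MP_748296_nt, module H, part 1: exact identities over `ℤ`
-/

namespace Pool.Agent.Lib.MP_748296_nt.H61

open Finset Polynomial

/-- `(-1)^k binom(N,k) binom(N+k,k)` -/
def phi (N k : ℕ) : ℤ := (-1) ^ k * (N.choose k : ℤ) * ((N + k).choose k : ℤ)

theorem phi_zero (N : ℕ) : phi N 0 = 1 := by simp [phi]

theorem phi_eq_zero {N k : ℕ} (h : N < k) : phi N k = 0 := by
  simp [phi, Nat.choose_eq_zero_of_lt h]

theorem phi_succ (N k : ℕ) :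
    ((k : ℤ) + 1) ^ 2 * phi N (k + 1) = ((k : ℤ) - N) * (k + N + 1) * phi N k := by
  have h1 : (N.choose (k + 1) : ℤ) * (k + 1) = (N.choose k : ℤ) * (N - k) := by
    by_cases h : k ≤ N
    · have := Nat.choose_succ_right_eq N k
      have h2 : ((N.choose (k + 1) * (k + 1) : ℕ) : ℤ) = ((N.choose k * (N - k) : ℕ) : ℤ) := by
        rw [this]
      push_cast [Nat.cast_sub h] at h2
      exact h2
    · have h3 : N < k := not_le.1 h
      rw [Nat.choose_eq_zero_of_lt h3, Nat.choose_eq_zero_of_lt (by omega)]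
      simp
  have h2 : ((N + (k + 1)).choose (k + 1) : ℤ) * (k + 1) = (N + k + 1) * ((N + k).choose k : ℤ) := by
    have := Nat.add_one_mul_choose_eq (N + k) k
    have h3 : (((N + k + 1) * (N + k).choose k : ℕ) : ℤ)
        = (((N + k + 1).choose (k + 1) * (k + 1) : ℕ) : ℤ) := by rw [this]
    push_cast at h3
    rw [show N + (k + 1) = N + k + 1 by ring]
    linarith
  simp only [phi, pow_succ]
  calc ((k : ℤ) + 1) ^ 0 * (k + 1) * (k + 1) * ((-1) ^ k * -1 * (N.choose (k + 1) : ℤ)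
          * ((N + (k + 1)).choose (k + 1) : ℤ))
      = - (-1) ^ k * ((N.choose (k + 1) : ℤ) * (k + 1)) *
          (((N + (k + 1)).choose (k + 1) : ℤ) * (k + 1)) := by ring
    _ = _ := by rw [h1, h2]; ring

/-- `4 X (1 - X)` -/
noncomputable def ww : ℤ[X] := 4 * X * (1 - X)

theorem der_ww : derivative ww = 4 * (1 - 2 * X) := by
  simp only [ww, derivative_mul, derivative_sub, derivative_X, derivative_one, derivative_ofNat]
  ring

theorem der_pow_succ (k : ℕ) :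
    derivative (ww ^ (k + 1)) = ((k : ℤ[X]) + 1) * ww ^ k * (4 * (1 - 2 * X)) := by
  rw [derivative_pow_succ, der_ww]
  simp

theorem ww_mul_der (k : ℕ) :
    ww * derivative (ww ^ k) = (k : ℤ[X]) * ww ^ k * (4 * (1 - 2 * X)) := by
  cases k with
  | zero => simp
  | succ k =>
    rw [der_pow_succ]
    push_cast
    ring

/-- (four times) the Legendre operator. -/
noncomputable def LOp (N : ℕ) (P : ℤ[X]) : ℤ[X] :=
  ww * derivative (derivative P) + (4 * (1 - 2 * X)) * derivative P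
    + 4 * ((N : ℤ[X]) * ((N : ℤ[X]) + 1)) * P

theorem LOp_sum (N : ℕ) {ι : Type} (s : Finset ι) (f : ι → ℤ[X]) :
    LOp N (∑ i ∈ s, f i) = ∑ i ∈ s, LOp N (f i) := by
  simp only [LOp, derivative_sum, mul_sum, sum_add_distrib]

theorem LOp_C_mul (N : ℕ) (a : ℤ) (f : ℤ[X]) : LOp N (C a * f) = C a * LOp N f := by
  simp only [LOp, derivative_C_mul]
  ring

theorem LOp_one (N : ℕ) : LOp N 1 = 4 * ((N : ℤ[X]) * ((N : ℤ[X]) + 1)) := by
  simp [LOp]

theorem LOp_pow_succ (N k : ℕ) : LOp N (ww ^ (k + 1)) = 16 * ((k : ℤ[X]) + 1) ^ 2 * ww ^ k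
    + 4 * ((N : ℤ[X]) * ((N : ℤ[X]) + 1) - 2 * (k + 1) * (2 * k + 3)) * ww ^ (k + 1) := by
  have h1 : derivative (derivative (ww ^ (k + 1)))
      = ((k : ℤ[X]) + 1) * derivative (ww ^ k) * (4 * (1 - 2 * X))
        - 8 * ((k : ℤ[X]) + 1) * ww ^ k := by
    rw [der_pow_succ]
    simp only [derivative_mul, derivative_sub, derivative_X, derivative_one, derivative_ofNat,
      derivative_add, derivative_natCast]
    ring
  have h2 := ww_mul_der k
  rw [LOp, h1, der_pow_succ]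
  have h3 : ww * (((k : ℤ[X]) + 1) * derivative (ww ^ k) * (4 * (1 - 2 * X))
        - 8 * ((k : ℤ[X]) + 1) * ww ^ k)
      = ((k : ℤ[X]) + 1) * (4 * (1 - 2 * X)) * ((k : ℤ[X]) * ww ^ k * (4 * (1 - 2 * X)))
        - 8 * ((k : ℤ[X]) + 1) * (ww ^ k * ww) := by
    rw [← h2]; ring
  rw [h3]
  have h4 : (4 * (1 - 2 * X)) * (4 * (1 - 2 * X)) = 16 * (1 - ww) := by
    rw [ww]; ring
  have h5 : ((k : ℤ[X]) + 1) * (4 * (1 - 2 * X)) * ((k : ℤ[X]) * ww ^ k * (4 * (1 - 2 * X)))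
      = ((k : ℤ[X]) + 1) * (k : ℤ[X]) * ww ^ k * (16 * (1 - ww)) := by
    rw [← h4]; ring
  have h6 : 4 * (1 - 2 * X) * (((k : ℤ[X]) + 1) * ww ^ k * (4 * (1 - 2 * X)))
      = ((k : ℤ[X]) + 1) * ww ^ k * (16 * (1 - ww)) := by
    rw [← h4]; ring
  rw [h5, h6, pow_succ]
  ring

theorem LOp_mul (N : ℕ) (v : ℤ[X]) : LOp N ((1 - 2 * X) * v) = (1 - 2 * X) * LOp N v
    - 4 * (ww * derivative v) - 8 * (1 - 2 * X) * v := by
  have h1 : derivative ((1 - 2 * X) * v) = (1 - 2 * X) * derivative v - 2 * v := by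
    simp only [derivative_mul, derivative_sub, derivative_X, derivative_one, derivative_ofNat]
    ring
  have h2 : derivative ((1 - 2 * X) * derivative v - 2 * v)
      = (1 - 2 * X) * derivative (derivative v) - 4 * derivative v := by
    simp only [derivative_mul, derivative_sub, derivative_X, derivative_one, derivative_ofNat]
    ring
  simp only [LOp, h1, h2]
  ring

/-- The coefficient recursion. -/
theorem coeff_rec {N : ℕ} {P : ℤ[X]} (h : LOp N P = 0) (j : ℕ) :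
    ((j : ℤ) + 1) ^ 2 * P.coeff (j + 1) = ((j : ℤ) - N) * (j + N + 1) * P.coeff j := by
  have h1 : (4 : ℤ[X]) * (X * derivative (derivative P) - X * (X * derivative (derivative P))
      + derivative P - (X * derivative P) * C 2 + C ((N : ℤ) * (N + 1)) * P) = 0 := by
    rw [← h, LOp, ww]
    simp only [map_mul, map_add, map_natCast, map_one, map_ofNat]
    ring
  have h2 : (X * derivative (derivative P) - X * (X * derivative (derivative P))
      + derivative P - (X * derivative P) * C 2 + C ((N : ℤ) * (N + 1)) * P) = 0 := by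
    rcases mul_eq_zero.1 h1 with h0 | h0
    · exact absurd h0 (by norm_num)
    · exact h0
  have h3 := congrArg (fun Q : ℤ[X] => Q.coeff j) h2
  match j with
  | 0 =>
    simp only [coeff_add, coeff_sub, coeff_X_mul_zero, coeff_C_mul, coeff_mul_C,
      coeff_derivative, coeff_zero] at h3
    push_cast at h3 ⊢
    linarith
  | 1 =>
    have e1 : (X * derivative (derivative P)).coeff 1 = (derivative (derivative P)).coeff 0 :=
      coeff_X_mul _ 0
    have e2 : (X * (X * derivative (derivative P))).coeff 1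
        = (X * derivative (derivative P)).coeff 0 := coeff_X_mul _ 0
    have e3 : (X * derivative P).coeff 1 = (derivative P).coeff 0 := coeff_X_mul _ 0
    simp only [coeff_add, coeff_sub, e1, e2, e3, coeff_X_mul_zero, coeff_C_mul, coeff_mul_C,
      coeff_derivative, coeff_zero] at h3
    push_cast at h3 ⊢
    norm_num at h3 ⊢
    linarith
  | j + 2 =>
    simp only [coeff_add, coeff_sub, coeff_X_mul, coeff_C_mul, coeff_mul_C,
      coeff_derivative, coeff_zero] at h3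
    push_cast at h3 ⊢
    linarith

theorem coeff_eq {N : ℕ} {P : ℤ[X]} (h : LOp N P = 0) (j : ℕ) :
    P.coeff j = P.coeff 0 * phi N j := by
  induction j with
  | zero => simp [phi_zero]
  | succ j ih =>
    have h1 := coeff_rec h j
    have h2 := phi_succ N j
    rw [ih] at h1
    have h3 : ((j : ℤ) + 1) ^ 2 * (P.coeff (j + 1)) = ((j : ℤ) + 1) ^ 2 *
        (P.coeff 0 * phi N (j + 1)) := by
      rw [h1]
      linear_combination (-(P.coeff 0)) * h2
    exact mul_left_cancel₀ (pow_ne_zero _ (by positivity)) h3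

/-- The first exact identity. -/
theorem exact1 (m : ℕ) (c : ℕ → ℤ)
    (hc : ∀ k : ℕ, 2 * ((k : ℤ) + 1) ^ 2 * c (k + 1) = ((k : ℤ) - m) * (2 * k + 2 * m + 1) * c k) (j : ℕ) :
    (∑ k ∈ range (m + 1), C (c k) * ww ^ k).coeff j = c 0 * phi (2 * m) j := by
  have h0 : (∑ k ∈ range (m + 1), C (c k) * ww ^ k).coeff 0 = c 0 := by
    rw [finsetSum_coeff, sum_range_succ', sum_eq_zero]
    · simp
    · intro k _
      rw [coeff_C_mul, pow_succ, mul_coeff_zero, ww, mul_assoc, mul_coeff_zero, mul_coeff_zero]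
      simp
  rw [← h0]
  refine coeff_eq ?_ j
  rw [LOp_sum]
  simp only [LOp_C_mul]
  rw [sum_range_succ']
  simp only [LOp_pow_succ, pow_zero, LOp_one]
  have h1 : ∀ k, C (c (k + 1)) * (16 * ((k : ℤ[X]) + 1) ^ 2 * ww ^ k
      + 4 * (((2 * m : ℕ) : ℤ[X]) * (((2 * m : ℕ) : ℤ[X]) + 1) - 2 * (k + 1) * (2 * k + 3))
        * ww ^ (k + 1))
      = C (c (k + 1)) * (4 * (((2 * m : ℕ) : ℤ[X]) * (((2 * m : ℕ) : ℤ[X]) + 1)
          - 2 * (k + 1) * (2 * k + 3))) * ww ^ (k + 1)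
        - C (c k) * (4 * (((2 * m : ℕ) : ℤ[X]) * (((2 * m : ℕ) : ℤ[X]) + 1)
          - 2 * k * (2 * k + 1))) * ww ^ k := by
    intro k
    have h2 := congrArg (fun a : ℤ => (C a : ℤ[X])) (hc k)
    simp only [map_mul, map_add, map_sub, map_pow, map_natCast, map_one, map_ofNat] at h2
    push_cast
    linear_combination (8 * ww ^ k) * h2
  simp only [h1]
  have h3 := sum_range_sub (fun k : ℕ => C (c k) * (4 * (((2 * m : ℕ) : ℤ[X])
    * (((2 * m : ℕ) : ℤ[X]) + 1) - 2 * k * (2 * k + 1))) * ww ^ k) m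
  push_cast at h3 ⊢
  have h4 : ∀ k : ℕ, (2 : ℤ[X]) * ((k : ℤ[X]) + 1) * (2 * k + 3)
      = 2 * ((k : ℤ[X]) + 1) * (2 * (k + 1) + 1) := by intro k; ring
  simp only [h4]
  rw [h3]
  ring

/-- The second exact identity. -/
theorem exact2 (m : ℕ) (c : ℕ → ℤ)
    (hc : ∀ k : ℕ, 2 * ((k : ℤ) + 1) ^ 2 * c (k + 1) = ((k : ℤ) - m) * (2 * k + 2 * m + 3) * c k) (j : ℕ) :
    ((1 - 2 * (X : ℤ[X])) * ∑ k ∈ range (m + 1), C (c k) * ww ^ k).coeff j = c 0 * phi (2 * m + 1) j := by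
  have h0 : ((1 - 2 * (X : ℤ[X])) * ∑ k ∈ range (m + 1), C (c k) * ww ^ k).coeff 0 = c 0 := by
    rw [mul_coeff_zero, finsetSum_coeff, sum_range_succ', sum_eq_zero]
    · simp
    · intro k _
      rw [coeff_C_mul, pow_succ, mul_coeff_zero, ww, mul_assoc, mul_coeff_zero, mul_coeff_zero]
      simp
  rw [← h0]
  refine coeff_eq ?_ j
  rw [mul_sum, LOp_sum]
  have hz : ∀ k, (1 - 2 * (X : ℤ[X])) * (C (c k) * ww ^ k) = C (c k) * ((1 - 2 * (X : ℤ[X])) * ww ^ k) := by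
    intro k; ring
  simp only [hz, LOp_C_mul, LOp_mul, ww_mul_der]
  rw [sum_range_succ']
  simp only [LOp_pow_succ, pow_zero, LOp_one]
  have h1 : ∀ k : ℕ, C (c (k + 1)) * ((1 - 2 * (X : ℤ[X])) * (16 * ((k : ℤ[X]) + 1) ^ 2 * ww ^ k
      + 4 * (((2 * m + 1 : ℕ) : ℤ[X]) * (((2 * m + 1 : ℕ) : ℤ[X]) + 1) - 2 * (k + 1) * (2 * k + 3))
        * ww ^ (k + 1)) - 4 * (((k + 1 : ℕ) : ℤ[X]) * ww ^ (k + 1) * (4 * (1 - 2 * (X : ℤ[X]))))
        - 8 * (1 - 2 * (X : ℤ[X])) * ww ^ (k + 1))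
      = C (c (k + 1)) * ((1 - 2 * (X : ℤ[X])) * (8 * ((m : ℤ[X]) - ((k : ℤ[X]) + 1)) * (2 * (m : ℤ[X]) + 2 * ((k : ℤ[X]) + 1) + 3)))
          * ww ^ (k + 1)
        - C (c k) * ((1 - 2 * (X : ℤ[X])) * (8 * ((m : ℤ[X]) - (k : ℤ[X])) * (2 * (m : ℤ[X]) + 2 * (k : ℤ[X]) + 3))) * ww ^ k := by
    intro k
    have h2 := congrArg (fun a : ℤ => (C a : ℤ[X])) (hc k)
    simp only [map_mul, map_add, map_sub, map_pow, map_natCast, map_one, map_ofNat] at h2
    push_cast
    linear_combination (8 * (1 - 2 * (X : ℤ[X])) * ww ^ k) * h2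
  simp only [h1]
  have h3 := sum_range_sub (fun k : ℕ => C (c k) * ((1 - 2 * (X : ℤ[X])) * (8 * ((m : ℤ[X]) - (k : ℤ[X]))
    * (2 * (m : ℤ[X]) + 2 * (k : ℤ[X]) + 3))) * ww ^ k) m
  push_cast at h3 ⊢
  rw [h3]
  ring

end Pool.Agent.Lib.MP_748296_nt.H61
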