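import Pool.Agent.Lib.MP_748296_nt.H61.Eta

/-!
# MP_748296_nt, module H, part 4: the hypergeometric sums
-/

namespace Pool.Agent.Lib.MP_748296_nt.H61

open Finset

/-- the data of the case `p = 1 mod 3`, `n = 2 m`. -/
structure Ctx (p m : ℕ) (B : Type) [CommRing B] : Prop where
  hp : p.Prime
  h5 : 5 < p
  hpm : p = 6 * m + 1
  hB : RingP2 p B

section
variable {B : Type} [CommRing B] {p m : ℕ}

theorem Ctx.unit_small (h : Ctx p m B) {l : ℕ} (h0 : 0 < l) (hl : l < p) : IsUnit (l : B) :=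
  h.hB.unit l fun hd => absurd (Nat.le_of_dvd h0 hd) (by omega)

theorem Ctx.u2 (h : Ctx p m B) : IsUnit (2 : B) := by
  exact_mod_cast h.unit_small (l := 2) (by norm_num) (by have := h.h5; omega)

theorem Ctx.u3 (h : Ctx p m B) : IsUnit (3 : B) := by
  exact_mod_cast h.unit_small (l := 3) (by norm_num) (by have := h.h5; omega)

theorem Ctx.uf (h : Ctx p m B) : ∀ k < p, IsUnit ((k.factorial : ℕ) : B) := fun k hk =>
  h.hB.unit _ fun hd => absurd ((h.hp.dvd_factorial).1 hd) (by omega)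

theorem Ctx.cast (h : Ctx p m B) : (p : B) = 6 * m + 1 := by
  have := congrArg (fun a : ℕ => (a : B)) h.hpm
  push_cast at this
  exact this

theorem Ctx.u9f (h : Ctx p m B) {k : ℕ} (hk : k < p) : IsUnit ((9 : B) ^ k * (k.factorial : B) ^ 2) := by
  have : (9 : B) = 3 ^ 2 := by norm_num
  rw [this]
  exact ((h.u3.pow 2).pow k).mul ((h.uf k hk).pow 2)

theorem Ctx.u36f (h : Ctx p m B) {k : ℕ} (hk : k < p) : IsUnit ((36 : B) ^ k * (k.factorial : B) ^ 2) := by
  have : (36 : B) = 2 ^ 2 * 3 ^ 2 := by norm_num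
  rw [this]
  exact (((h.u2.pow 2).mul (h.u3.pow 2)).pow k).mul ((h.uf k hk).pow 2)

theorem Ctx.u27f (h : Ctx p m B) {k : ℕ} (hk : k < p) : IsUnit ((27 : B) ^ k * (k.factorial : B) ^ 4) := by
  have : (27 : B) = 3 ^ 3 := by norm_num
  rw [this]
  exact ((h.u3.pow 3).pow k).mul ((h.uf k hk).pow 4)

/-- existence of sequences with prescribed unit multiples -/
theorem exists_seq (U V : ℕ → B) (hU : ∀ k < p, IsUnit (U k)) :
    ∃ c : ℕ → B, ∀ k < p, c k * U k = V k := by
  refine ⟨fun k => V k * Ring.inverse (U k), fun k hk => ?_⟩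
  rw [mul_assoc, Ring.inverse_mul_cancel _ (hU k hk), mul_one]

theorem pow_mul_prod (a : B) (k : ℕ) (f : ℕ → B) :
    a ^ k * ∏ i ∈ range k, f i = ∏ i ∈ range k, (a * f i) := by
  rw [prod_mul_distrib, prod_const, card_range]

/-- (iv) before identification with `T`: `3 Σ a1 w^k = 2 Φ_n + Φ_{2n}`. -/
theorem sum_a1 (h : Ctx p m B) (lam : B) (a1 : ℕ → B)
    (ha : ∀ k < p, a1 k * (18 ^ k * (k.factorial : B) ^ 2)
      = ∏ i ∈ range k, ((3 * (i : B) + 1) * (6 * (i : B) + 1))) :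
    3 * ∑ k ∈ range p, a1 k * (4 * lam * (1 - lam)) ^ k
      = 2 * ∑ k ∈ range p, (phi (2 * m) k : B) * lam ^ k
        + ∑ k ∈ range p, (phi (4 * m) k : B) * lam ^ k := by
  have hu : ∀ k < p, IsUnit ((2 : B) ^ k * (k.factorial : B) ^ 2) := fun k hk =>
    (h.u2.pow k).mul ((h.uf k hk).pow 2)
  obtain ⟨c, hc⟩ := exists_seq (fun k => (2 : B) ^ k * (k.factorial : B) ^ 2)
    (fun k => ∏ i ∈ range k, (((i : B) - m) * (2 * i + 2 * m + 1))) hu
  obtain ⟨d, hd⟩ := exists_seq (fun k => (2 : B) ^ k * (k.factorial : B) ^ 2)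
    (fun k => ∏ i ∈ range k, (((i : B) - (2 * m : ℕ)) * (2 * i + 2 * (2 * m : ℕ) + 1))) hu
  have hpm := h.hpm
  have e1 := exact1B h.u2 h.uf (show m < p by omega) c hc lam p (by omega)
  have e2 := exact1B h.u2 h.uf (show 2 * m < p by omega) d hd lam p (by omega)
  rw [show 2 * (2 * m) = 4 * m by ring] at e2
  rw [← e1, ← e2, mul_sum, mul_sum, ← sum_add_distrib]
  refine sum_congr rfl fun k hk => ?_
  rw [mem_range] at hk
  have key : 3 * a1 k = 2 * c k + d k := by
    refine (h.u36f hk).mul_left_cancel ?_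
    have hA : Aff p fun t : B => ∏ i ∈ range k, ((6 * (i : B) + 1 + p * t * (-1))
        * (6 * (i : B) + 2 + p * t * 1)) :=
      Aff.prod h.hB.sq k (fun i t => (6 * (i : B) + 1 + p * t * (-1)) * (6 * (i : B) + 2 + p * t * 1))
        (fun i => (Aff.lin p _ _).mul h.hB.sq (Aff.lin p _ _))
    have hI := hA.interp (a := 2) (b := 1) (s := 1) (t := -2) (by ring)
    have f1 : (36 : B) ^ k * (k.factorial : B) ^ 2 * c k = ∏ i ∈ range k,
        ((6 * (i : B) + 1 + p * 1 * (-1)) * (6 * (i : B) + 2 + p * 1 * 1)) := by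
      have : (36 : B) ^ k * (k.factorial : B) ^ 2 * c k
          = 18 ^ k * (c k * (2 ^ k * (k.factorial : B) ^ 2)) := by
        rw [show (36 : B) = 18 * 2 by norm_num, mul_pow]; ring
      rw [this, hc k hk, pow_mul_prod]
      refine prod_congr rfl fun i _ => ?_
      rw [h.cast]; ring
    have f2 : (36 : B) ^ k * (k.factorial : B) ^ 2 * d k = ∏ i ∈ range k,
        ((6 * (i : B) + 1 + p * (-2) * (-1)) * (6 * (i : B) + 2 + p * (-2) * 1)) := by
      have : (36 : B) ^ k * (k.factorial : B) ^ 2 * d k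
          = 18 ^ k * (d k * (2 ^ k * (k.factorial : B) ^ 2)) := by
        rw [show (36 : B) = 18 * 2 by norm_num, mul_pow]; ring
      rw [this, hd k hk, pow_mul_prod]
      refine prod_congr rfl fun i _ => ?_
      push_cast
      rw [h.cast]; ring
    have f3 : (36 : B) ^ k * (k.factorial : B) ^ 2 * a1 k = ∏ i ∈ range k,
        ((6 * (i : B) + 1 + p * 0 * (-1)) * (6 * (i : B) + 2 + p * 0 * 1)) := by
      have : (36 : B) ^ k * (k.factorial : B) ^ 2 * a1 k
          = 2 ^ k * (a1 k * (18 ^ k * (k.factorial : B) ^ 2)) := by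
        rw [show (36 : B) = 18 * 2 by norm_num, mul_pow]; ring
      rw [this, ha k hk, pow_mul_prod]
      refine prod_congr rfl fun i _ => ?_
      ring
    beta_reduce at hI
    rw [← f1, ← f2, ← f3] at hI
    linear_combination (-1) * hI
  linear_combination (4 * lam * (1 - lam)) ^ k * key

/-- `9 (1 - 2 lam) Σ a2 w^k = 5 Φ_{p+n} + 4 Φ_{p+2n}`. -/
theorem sum_a2 (h : Ctx p m B) (lam : B) (a2 : ℕ → B)
    (ha : ∀ k < p, a2 k * (18 ^ k * (k.factorial : B) ^ 2)
      = ∏ i ∈ range k, ((3 * (i : B) + 2) * (6 * (i : B) + 5))) :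
    9 * ((1 - 2 * lam) * ∑ k ∈ range p, a2 k * (4 * lam * (1 - lam)) ^ k)
      = 5 * ∑ k ∈ range (p + p), (phi (p + 2 * m) k : B) * lam ^ k
        + 4 * ∑ k ∈ range (p + p), (phi (p + 4 * m) k : B) * lam ^ k := by
  have hu : ∀ k < p, IsUnit ((2 : B) ^ k * (k.factorial : B) ^ 2) := fun k hk =>
    (h.u2.pow k).mul ((h.uf k hk).pow 2)
  obtain ⟨c, hc⟩ := exists_seq (fun k => (2 : B) ^ k * (k.factorial : B) ^ 2)
    (fun k => ∏ i ∈ range k, (((i : B) - (4 * m : ℕ)) * (2 * i + 2 * (4 * m : ℕ) + 3))) hu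
  obtain ⟨d, hd⟩ := exists_seq (fun k => (2 : B) ^ k * (k.factorial : B) ^ 2)
    (fun k => ∏ i ∈ range k, (((i : B) - (5 * m : ℕ)) * (2 * i + 2 * (5 * m : ℕ) + 3))) hu
  have hpm := h.hpm
  have e1 := exact2B h.u2 h.uf (show 4 * m < p by omega) c hc lam (p + p) (by omega)
  have e2 := exact2B h.u2 h.uf (show 5 * m < p by omega) d hd lam (p + p) (by omega)
  rw [show 2 * (4 * m) + 1 = p + 2 * m by omega] at e1
  rw [show 2 * (5 * m) + 1 = p + 4 * m by omega] at e2
  rw [← e1, ← e2]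
  have : 9 * ∑ k ∈ range p, a2 k * (4 * lam * (1 - lam)) ^ k
      = 5 * ∑ k ∈ range p, c k * (4 * lam * (1 - lam)) ^ k
        + 4 * ∑ k ∈ range p, d k * (4 * lam * (1 - lam)) ^ k := by
    rw [mul_sum, mul_sum, mul_sum, ← sum_add_distrib]
    refine sum_congr rfl fun k hk => ?_
    rw [mem_range] at hk
    have key : 9 * a2 k = 5 * c k + 4 * d k := by
      refine (h.u36f hk).mul_left_cancel ?_
      have hA : Aff p fun t : B => ∏ i ∈ range k, ((6 * (i : B) + 4 + p * t * (-1))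
          * (6 * (i : B) + 5 + p * t * 1)) :=
        Aff.prod h.hB.sq k
          (fun i t => (6 * (i : B) + 4 + p * t * (-1)) * (6 * (i : B) + 5 + p * t * 1))
          (fun i => (Aff.lin p _ _).mul h.hB.sq (Aff.lin p _ _))
      have hI := hA.interp (a := 5) (b := 4) (s := 4) (t := -5) (by ring)
      have f1 : (36 : B) ^ k * (k.factorial : B) ^ 2 * c k = ∏ i ∈ range k,
          ((6 * (i : B) + 4 + p * 4 * (-1)) * (6 * (i : B) + 5 + p * 4 * 1)) := by
        have : (36 : B) ^ k * (k.factorial : B) ^ 2 * c k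
            = 18 ^ k * (c k * (2 ^ k * (k.factorial : B) ^ 2)) := by
          rw [show (36 : B) = 18 * 2 by norm_num, mul_pow]; ring
        rw [this, hc k hk, pow_mul_prod]
        refine prod_congr rfl fun i _ => ?_
        push_cast
        rw [h.cast]; ring
      have f2 : (36 : B) ^ k * (k.factorial : B) ^ 2 * d k = ∏ i ∈ range k,
          ((6 * (i : B) + 4 + p * (-5) * (-1)) * (6 * (i : B) + 5 + p * (-5) * 1)) := by
        have : (36 : B) ^ k * (k.factorial : B) ^ 2 * d k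
            = 18 ^ k * (d k * (2 ^ k * (k.factorial : B) ^ 2)) := by
          rw [show (36 : B) = 18 * 2 by norm_num, mul_pow]; ring
        rw [this, hd k hk, pow_mul_prod]
        refine prod_congr rfl fun i _ => ?_
        push_cast
        rw [h.cast]; ring
      have f3 : (36 : B) ^ k * (k.factorial : B) ^ 2 * a2 k = ∏ i ∈ range k,
          ((6 * (i : B) + 4 + p * 0 * (-1)) * (6 * (i : B) + 5 + p * 0 * 1)) := by
        have : (36 : B) ^ k * (k.factorial : B) ^ 2 * a2 k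
            = 2 ^ k * (a2 k * (18 ^ k * (k.factorial : B) ^ 2)) := by
          rw [show (36 : B) = 18 * 2 by norm_num, mul_pow]; ring
        rw [this, ha k hk, pow_mul_prod]
        refine prod_congr rfl fun i _ => ?_
        ring
      beta_reduce at hI
      rw [← f1, ← f2, ← f3] at hI
      linear_combination (-1) * hI
    linear_combination (4 * lam * (1 - lam)) ^ k * key
  linear_combination (1 - 2 * lam) * this

/-- `9^k k!^2 phi_k(N)` as a product. -/
theorem phi_nine (N k : ℕ) : (9 : B) ^ k * (k.factorial : B) ^ 2 * (phi N k : B)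
    = ∏ i ∈ range k, ((3 * (i : B) - 3 * N) * (3 * i + 3 * N + 3)) := by
  have h1 := congrArg (fun a : ℤ => (a : B)) (phi_prod N k)
  push_cast at h1
  have : (9 : B) ^ k * (k.factorial : B) ^ 2 * (phi N k : B)
      = 9 ^ k * ((phi N k : B) * (k.factorial : B) ^ 2) := by ring
  rw [this, h1, pow_mul_prod]
  exact prod_congr rfl fun i _ => by ring

/-- the function `G(t) = ∏ (3i+1-tp)(3i+2+tp)` -/
theorem aff_G (h : Ctx p m B) (k : ℕ) : Aff p fun t : B => ∏ i ∈ range k,
    ((3 * (i : B) + 1 + p * t * (-1)) * (3 * (i : B) + 2 + p * t * 1)) :=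
  Aff.prod h.hB.sq k (fun i t => (3 * (i : B) + 1 + p * t * (-1)) * (3 * (i : B) + 2 + p * t * 1))
    (fun i => (Aff.lin p _ _).mul h.hB.sq (Aff.lin p _ _))

/-- small coefficients -/
theorem phi_small (h : Ctx p m B) {k : ℕ} (hk : k < p) {T : B}
    (hT : T * (9 ^ k * (k.factorial : B) ^ 2)
      = ∏ i ∈ range k, ((3 * (i : B) + 1) * (3 * (i : B) + 2))) :
    2 * (phi (2 * m) k : B) + (phi (4 * m) k : B) = 3 * T ∧
    5 * (phi (p + 2 * m) k : B) + 4 * (phi (p + 4 * m) k : B) = 9 * T := by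
  have f0 : (9 : B) ^ k * (k.factorial : B) ^ 2 * T = ∏ i ∈ range k,
      ((3 * (i : B) + 1 + p * 0 * (-1)) * (3 * (i : B) + 2 + p * 0 * 1)) := by
    rw [mul_comm, hT]
    exact prod_congr rfl fun i _ => by ring
  have f1 : (9 : B) ^ k * (k.factorial : B) ^ 2 * (phi (2 * m) k : B) = ∏ i ∈ range k,
      ((3 * (i : B) + 1 + p * 1 * (-1)) * (3 * (i : B) + 2 + p * 1 * 1)) := by
    rw [phi_nine]
    refine prod_congr rfl fun i _ => ?_
    push_cast
    rw [h.cast]; ring
  have f2 : (9 : B) ^ k * (k.factorial : B) ^ 2 * (phi (4 * m) k : B) = ∏ i ∈ range k,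
      ((3 * (i : B) + 1 + p * (-2) * (-1)) * (3 * (i : B) + 2 + p * (-2) * 1)) := by
    rw [phi_nine]
    refine prod_congr rfl fun i _ => ?_
    push_cast
    rw [h.cast]; ring
  have f3 : (9 : B) ^ k * (k.factorial : B) ^ 2 * (phi (p + 2 * m) k : B) = ∏ i ∈ range k,
      ((3 * (i : B) + 1 + p * 4 * (-1)) * (3 * (i : B) + 2 + p * 4 * 1)) := by
    rw [phi_nine]
    refine prod_congr rfl fun i _ => ?_
    push_cast
    rw [h.cast]; ring
  have f4 : (9 : B) ^ k * (k.factorial : B) ^ 2 * (phi (p + 4 * m) k : B) = ∏ i ∈ range k,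
      ((3 * (i : B) + 1 + p * (-5) * (-1)) * (3 * (i : B) + 2 + p * (-5) * 1)) := by
    rw [phi_nine]
    refine prod_congr rfl fun i _ => ?_
    push_cast
    rw [h.cast]; ring
  have i1 := (aff_G h k).interp (a := 2) (b := 1) (s := 1) (t := -2) (by ring)
  have i2 := (aff_G h k).interp (a := 5) (b := 4) (s := 4) (t := -5) (by ring)
  beta_reduce at i1 i2
  rw [← f1, ← f2, ← f0] at i1
  rw [← f3, ← f4, ← f0] at i2
  constructor
  · refine (h.u9f hk).mul_left_cancel ?_
    linear_combination i1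
  · refine (h.u9f hk).mul_left_cancel ?_
    linear_combination i2

end

end Pool.Agent.Lib.MP_748296_nt.H61
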