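import Pool.Agent.Lib.MP_748296_nt.H61.Exact

/-!
# MP_748296_nt, module H, part 2: the exact identities in `B`, affine calculus
-/

namespace Pool.Agent.Lib.MP_748296_nt.H61

open Finset Polynomial

/-! ## integer versions of the coefficients -/

/-- integer numerators -/
def cI (m r k : ℕ) : ℤ :=
  (-1) ^ k * (m.choose k : ℤ) * (∏ i ∈ range k, (2 * (m : ℤ) + r + 2 * i)) * 2 ^ (m - k)
    * (m.descFactorial (m - k) : ℤ) * (m.factorial : ℤ)

theorem cI_zero (m r : ℕ) : cI m r 0 = 2 ^ m * (m.factorial : ℤ) ^ 2 := by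
  simp [cI, Nat.descFactorial_self]
  ring

theorem cI_succ (m r k : ℕ) :
    2 * ((k : ℤ) + 1) ^ 2 * cI m r (k + 1) = ((k : ℤ) - m) * (2 * k + 2 * m + r) * cI m r k := by
  rcases lt_trichotomy k m with h | h | h
  · obtain ⟨d, rfl⟩ : ∃ d, m = k + 1 + d := ⟨m - (k + 1), by omega⟩
    have h1 : ((k + 1 + d).choose (k + 1) : ℤ) * (k + 1) = ((k + 1 + d).choose k : ℤ) * (d + 1) := by
      have := Nat.choose_succ_right_eq (k + 1 + d) k
      rw [show k + 1 + d - k = d + 1 by omega] at this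
      exact_mod_cast this
    have h2 : k + 1 + d - (k + 1) = d := by omega
    have h3 : k + 1 + d - k = d + 1 := by omega
    have h4 : ((k + 1 + d).descFactorial (d + 1) : ℤ)
        = (k + 1) * ((k + 1 + d).descFactorial d : ℤ) := by
      rw [Nat.descFactorial_succ, show k + 1 + d - d = k + 1 by omega]
      push_cast; ring
    simp only [cI, h2, h3, h4, prod_range_succ, pow_succ]
    push_cast
    linear_combination (-(-1) ^ k * 2 * ((k : ℤ) + 1)
      * (∏ i ∈ range k, (2 * ((k : ℤ) + 1 + d) + r + 2 * i)) * (2 * ((k : ℤ) + 1 + d) + r + 2 * k)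
      * 2 ^ d * ((k + 1 + d).descFactorial d : ℤ) * ((k + 1 + d).factorial : ℤ)) * h1
  · subst h
    simp [cI]
  · simp [cI, Nat.choose_eq_zero_of_lt h, Nat.choose_eq_zero_of_lt (Nat.lt_succ_of_lt h)]

theorem cI_prod (m r k : ℕ) : cI m r k * (2 ^ k * (k.factorial : ℤ) ^ 2)
    = cI m r 0 * ∏ i ∈ range k, (((i : ℤ) - m) * (2 * i + 2 * m + r)) := by
  induction k with
  | zero => simp
  | succ k ih =>
    rw [prod_range_succ, Nat.factorial_succ]
    push_cast
    have := cI_succ m r k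
    linear_combination (2 ^ k * (k.factorial : ℤ) ^ 2) * this
      + (((k : ℤ) - m) * (2 * k + 2 * m + r)) * ih

theorem phi_prod (N k : ℕ) : phi N k * (k.factorial : ℤ) ^ 2
    = ∏ i ∈ range k, (((i : ℤ) - N) * (i + N + 1)) := by
  induction k with
  | zero => simp [phi_zero]
  | succ k ih =>
    rw [prod_range_succ, Nat.factorial_succ]
    push_cast
    have := phi_succ N k
    linear_combination ((k.factorial : ℤ) ^ 2) * this + (((k : ℤ) - N) * (k + N + 1)) * ih

theorem phi_prod_add (N q j : ℕ) : phi N (q + j) * ∏ i ∈ range j, ((q : ℤ) + i + 1) ^ 2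
    = phi N q * ∏ i ∈ range j, (((q : ℤ) + i - N) * (q + i + N + 1)) := by
  induction j with
  | zero => simp
  | succ j ih =>
    rw [prod_range_succ, prod_range_succ, ← add_assoc]
    have := phi_succ N (q + j)
    push_cast at this
    linear_combination (∏ i ∈ range j, ((q : ℤ) + i + 1) ^ 2) * this
      + (((q : ℤ) + j - N) * (q + j + N + 1)) * ih

section
variable {B : Type} [CommRing B]

theorem eval_sum (lam : B) (c : ℕ → ℤ) (s : Finset ℕ) :
    (∑ k ∈ s, C (c k) * ww ^ k).eval₂ (Int.castRingHom B) lam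
      = ∑ k ∈ s, (c k : B) * (4 * lam * (1 - lam)) ^ k := by
  rw [eval₂_finsetSum]
  refine sum_congr rfl fun k _ => ?_
  rw [eval₂_mul, eval₂_C, eval₂_pow]
  simp [ww, eval₂_mul]

theorem eval_X (lam : B) (c : ℕ → ℤ) (s : Finset ℕ) :
    (∑ k ∈ s, C (c k) * (X : ℤ[X]) ^ k).eval₂ (Int.castRingHom B) lam
      = ∑ k ∈ s, (c k : B) * lam ^ k := by
  rw [eval₂_finsetSum]
  refine sum_congr rfl fun k _ => ?_
  rw [eval₂_mul, eval₂_C, eval₂_pow]
  simp

theorem poly_eq {P : ℤ[X]} {N K : ℕ} (hK : N < K) {a : ℤ} (h : ∀ j, P.coeff j = a * phi N j) :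
    P = ∑ k ∈ range K, C (a * phi N k) * (X : ℤ[X]) ^ k := by
  ext j
  rw [h, finsetSum_coeff]
  simp only [coeff_C_mul, coeff_X_pow, mul_ite, mul_one, mul_zero]
  rw [sum_ite_eq]
  split_ifs with h1
  · rfl
  · rw [phi_eq_zero (by rw [mem_range] at h1; omega), mul_zero]

/-- transfer of coefficients -/
theorem coeff_transfer {p m r : ℕ} (u2 : IsUnit (2 : B))
    (uf : ∀ k < p, IsUnit ((k.factorial : ℕ) : B)) (hm : m < p) (c : ℕ → B)
    (hc : ∀ k < p, c k * (2 ^ k * (k.factorial : B) ^ 2)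
      = ∏ i ∈ range k, (((i : B) - m) * (2 * i + 2 * m + r))) (w : B) :
    ∑ k ∈ range (m + 1), (cI m r k : B) * w ^ k = (cI m r 0 : B) * ∑ k ∈ range p, c k * w ^ k := by
  have h1 : ∀ k < p, (cI m r k : B) = (cI m r 0 : B) * c k := by
    intro k hk
    have hu : IsUnit ((2 : B) ^ k * (k.factorial : B) ^ 2) := (u2.pow k).mul ((uf k hk).pow 2)
    refine hu.mul_right_cancel ?_
    rw [mul_assoc, hc k hk]
    have := congrArg (fun a : ℤ => (a : B)) (cI_prod m r k)
    push_cast at this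
    exact this
  have h2 : ∀ k ∈ range p, k ∉ range (m + 1) → (cI m r 0 : B) * (c k * w ^ k) = 0 := by
    intro k hk hkm
    rw [mem_range] at hk hkm
    rw [← mul_assoc, ← h1 k hk]
    have : cI m r k = 0 := by
      simp [cI, Nat.choose_eq_zero_of_lt (show m < k by omega)]
    rw [this]; simp
  rw [mul_sum, ← sum_subset (range_subset_range.2 (by omega : m + 1 ≤ p)) h2]
  refine sum_congr rfl fun k hk => ?_
  rw [h1 k (by rw [mem_range] at hk; omega)]
  ring

theorem exact1B {p m : ℕ} (u2 : IsUnit (2 : B)) (uf : ∀ k < p, IsUnit ((k.factorial : ℕ) : B))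
    (hm : m < p) (c : ℕ → B) (hc : ∀ k < p, c k * (2 ^ k * (k.factorial : B) ^ 2)
      = ∏ i ∈ range k, (((i : B) - m) * (2 * i + 2 * m + 1))) (lam : B) (K : ℕ) (hK : 2 * m < K) :
    ∑ k ∈ range p, c k * (4 * lam * (1 - lam)) ^ k = ∑ k ∈ range K, (phi (2 * m) k : B) * lam ^ k := by
  have hu : IsUnit (cI m 1 0 : B) := by
    rw [cI_zero]
    push_cast
    exact (u2.pow m).mul ((uf m hm).pow 2)
  refine hu.mul_left_cancel ?_
  rw [← coeff_transfer (r := 1) u2 uf hm c (by simpa using hc)]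
  have h1 := exact1 m (cI m 1) (fun k => by simpa using cI_succ m 1 k)
  have h2 := poly_eq hK h1
  have h3 := congrArg (fun P : ℤ[X] => P.eval₂ (Int.castRingHom B) lam) h2
  simp only [eval_sum, eval_X] at h3
  rw [h3, mul_sum]
  refine sum_congr rfl fun k _ => ?_
  push_cast
  ring

theorem exact2B {p m : ℕ} (u2 : IsUnit (2 : B)) (uf : ∀ k < p, IsUnit ((k.factorial : ℕ) : B))
    (hm : m < p) (c : ℕ → B) (hc : ∀ k < p, c k * (2 ^ k * (k.factorial : B) ^ 2)
      = ∏ i ∈ range k, (((i : B) - m) * (2 * i + 2 * m + 3))) (lam : B) (K : ℕ)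
    (hK : 2 * m + 1 < K) :
    (1 - 2 * lam) * ∑ k ∈ range p, c k * (4 * lam * (1 - lam)) ^ k
      = ∑ k ∈ range K, (phi (2 * m + 1) k : B) * lam ^ k := by
  have hu : IsUnit (cI m 3 0 : B) := by
    rw [cI_zero]
    push_cast
    exact (u2.pow m).mul ((uf m hm).pow 2)
  refine hu.mul_left_cancel ?_
  rw [mul_left_comm, ← coeff_transfer (r := 3) u2 uf hm c (by simpa using hc)]
  have h1 := exact2 m (cI m 3) (fun k => by simpa using cI_succ m 3 k)
  have h2 := poly_eq hK h1
  have h3 := congrArg (fun P : ℤ[X] => P.eval₂ (Int.castRingHom B) lam) h2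
  simp only [eval_X, eval₂_mul, eval₂_sub, eval₂_one, eval₂_X, eval₂_ofNat] at h3
  rw [eval_sum] at h3
  rw [h3, mul_sum]
  refine sum_congr rfl fun k _ => ?_
  push_cast
  ring

/-! ## affine functions -/

/-- affine functions of the parameter `t` -/
def Aff (p : ℕ) (f : B → B) : Prop := ∃ Y : B, ∀ t, f t = f 0 + p * t * Y

theorem Aff.lin (p : ℕ) (x y : B) : Aff p fun t => x + p * t * y := ⟨y, fun t => by simp⟩

theorem Aff.mul {p : ℕ} (hp : (p : B) ^ 2 = 0) {f g : B → B} (hf : Aff p f) (hg : Aff p g) :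
    Aff p fun t => f t * g t := by
  obtain ⟨Y, hY⟩ := hf
  obtain ⟨Z, hZ⟩ := hg
  refine ⟨f 0 * Z + g 0 * Y, fun t => ?_⟩
  beta_reduce
  rw [hY t, hZ t]
  linear_combination (t ^ 2 * Y * Z) * hp

theorem Aff.prod {p : ℕ} (hp : (p : B) ^ 2 = 0) (k : ℕ) (f : ℕ → B → B) (hf : ∀ i, Aff p (f i)) :
    Aff p fun t => ∏ i ∈ range k, f i t := by
  induction k with
  | zero => exact ⟨0, fun t => by simp⟩
  | succ k ih =>
    simp only [prod_range_succ]
    exact ih.mul hp (hf k)

theorem Aff.interp {p : ℕ} {f : B → B} (hf : Aff p f) {a b s t : B} (h : a * s + b * t = 0) :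
    a * f s + b * f t = (a + b) * f 0 := by
  obtain ⟨Y, hY⟩ := hf
  rw [hY s, hY t]
  linear_combination (p * Y : B) * h

end

end Pool.Agent.Lib.MP_748296_nt.H61
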